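import Mathlib
import Pool.Agent.H71.CtblPerm2

set_option autoImplicit false

namespace Pool.Agent.Results.MP_bc5942_al.Principal

open Pool.Agent.H71.CtblPerm

/-- `H` has a principal (chief) series: a finite strictly increasing chain of normal subgroups of
`H` from the trivial subgroup to `H` with no normal subgroup of `H` strictly between two
consecutive terms. -/
def HasPrincipalSeries (H : Type) [Group H] : Prop :=
  ∃ (n : ℕ) (s : Fin (n + 1) → Subgroup H), s 0 = ⊥ ∧ s (Fin.last n) = ⊤ ∧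
    (∀ i, (s i).Normal) ∧
    ∀ i : Fin n, s i.castSucc < s i.succ ∧
      ∀ M : Subgroup H, M.Normal → s i.castSucc ≤ M → M ≤ s i.succ →
        M = s i.castSucc ∨ M = s i.succ

theorem of_simple (H : Type) [Group H] (h : IsSimpleGroup H) : HasPrincipalSeries H := by
  refine ⟨1, ![⊥, ⊤], rfl, rfl, fun i => ?_, fun i => ?_⟩
  · fin_cases i
    · exact (inferInstance : (⊥ : Subgroup H).Normal)
    · exact (inferInstance : (⊤ : Subgroup H).Normal)
  · obtain rfl : i = 0 := Subsingleton.elim _ _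
    exact ⟨(bot_lt_top : (⊥ : Subgroup H) < ⊤), fun M hM _ _ => hM.eq_bot_or_eq_top⟩

theorem dcc (H : Type) [Group H] (h : HasPrincipalSeries H) (M : ℕ → Subgroup H)
    (hn : ∀ j, (M j).Normal) (ha : Antitone M) : ∃ k, ∀ j, k ≤ j → M j = M k := by
  obtain ⟨n, s, h0, hl, hN, hs⟩ := h
  have key : ∀ i : Fin (n + 1), ∃ k, ∀ j, k ≤ j → M j ⊓ s i = M k ⊓ s i := by
    intro i
    induction i using Fin.induction with
    | zero => exact ⟨0, fun j _ => by rw [h0, inf_bot_eq, inf_bot_eq]⟩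
    | succ i ih =>
      obtain ⟨k, hk⟩ := ih
      have hL : ∀ j, (M j ⊓ s i.succ) ⊔ s i.castSucc = s i.castSucc ∨
          (M j ⊓ s i.succ) ⊔ s i.castSucc = s i.succ := fun j => by
        haveI := hn j
        haveI := hN i.succ
        haveI := hN i.castSucc
        exact (hs i).2 _ inferInstance le_sup_right (sup_le inf_le_right (hs i).1.le)
      have hL2 : ∃ k', ∀ j, k' ≤ j →
          (M k' ⊓ s i.succ) ⊔ s i.castSucc ≤ (M j ⊓ s i.succ) ⊔ s i.castSucc := by
        by_cases hc : ∃ k', (M k' ⊓ s i.succ) ⊔ s i.castSucc = s i.castSucc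
        · obtain ⟨k', hk'⟩ := hc
          exact ⟨k', fun j _ => by rw [hk']; exact le_sup_right⟩
        · refine ⟨0, fun j _ => ?_⟩
          rw [(hL j).resolve_left fun e => hc ⟨j, e⟩]
          exact sup_le inf_le_right (hs i).1.le
      obtain ⟨k', hk'⟩ := hL2
      refine ⟨max k k', fun j hj => le_antisymm (inf_le_inf_right _ (ha hj)) fun b hb => ?_⟩
      have hb1 : b ∈ (M j ⊓ s i.succ) ⊔ s i.castSucc :=
        hk' j ((le_max_right _ _).trans hj)
          (Subgroup.mem_sup_left ⟨ha (le_max_right k k') hb.1, hb.2⟩)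
      haveI := hN i.castSucc
      obtain ⟨a, ha', c, hc, rfl⟩ := Subgroup.mem_sup_of_normal_right.1 hb1
      have hc1 : c ∈ M (max k k') := by
        have := mul_mem (inv_mem (ha hj ha'.1)) hb.1
        rwa [inv_mul_cancel_left] at this
      have hc2 : c ∈ M j ⊓ s i.castSucc := by
        rw [hk j ((le_max_left _ _).trans hj), ← hk _ (le_max_left k k')]
        exact ⟨hc1, hc⟩
      exact ⟨mul_mem ha'.1 hc2.1, hb.2⟩
  obtain ⟨k, hk⟩ := key (Fin.last n)
  refine ⟨k, fun j hj => ?_⟩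
  have := hk j hj
  rwa [hl, inf_top_eq, inf_top_eq] at this

/-- the powers of elements of the abelian normal subgroup -/
def W (m : ℕ) : Subgroup G where
  carrier := {g | ∃ v ∈ V, v ^ m = g}
  mul_mem' := by
    rintro _ _ ⟨a, ha, rfl⟩ ⟨b, hb, rfl⟩
    exact ⟨a * b, mul_mem ha hb, Commute.mul_pow (V_comm a ha b hb) m⟩
  one_mem' := ⟨1, one_mem _, one_pow _⟩
  inv_mem' := by
    rintro _ ⟨a, ha, rfl⟩
    exact ⟨a⁻¹, inv_mem ha, inv_pow _ _⟩

theorem W_normal (m : ℕ) : (W m).Normal := ⟨by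
  rintro _ ⟨a, ha, rfl⟩ g
  exact ⟨g * a * g⁻¹, V_normal.conj_mem a ha g, conj_pow⟩⟩

theorem W_anti : Antitone fun j : ℕ => W (2 ^ j) := by
  refine antitone_nat_of_succ_le fun j => ?_
  rintro _ ⟨a, ha, rfl⟩
  exact ⟨a ^ 2, pow_mem ha 2, by rw [← pow_mul, pow_succ']⟩

theorem W_ne (k : ℕ) : W (2 ^ (k + 1)) ≠ W (2 ^ k) := by
  classical
  intro e
  obtain ⟨j, hj, -⟩ := exists_inj (J := ℕ) _ (Set.infinite_univ (α := X))
  let v : X → C := fun x => if x ∈ Set.range j then Multiplicative.ofAdd 1 else 1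
  have hv : SemidirectProduct.inl v ∈ G0 := ⟨(Set.countable_range j).mono
    (fun x hx => by
      by_contra h
      exact hx (if_neg h)), by simp [supp]⟩
  have hu : (QuotientGroup.mk ⟨_, hv⟩ : G) ∈ V :=
    ⟨⟨_, hv⟩, by simp [Subgroup.mem_subgroupOf], rfl⟩
  have h1 : (QuotientGroup.mk ⟨_, hv⟩ : G) ^ (2 ^ k) ∈ W (2 ^ (k + 1)) := by
    rw [e]; exact ⟨_, hu, rfl⟩
  obtain ⟨_, ⟨y, hy, rfl⟩, hw⟩ := h1
  have hy' : y.1.right = 1 := hy
  have hy2 : y.1 = SemidirectProduct.inl y.1.left := by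
    apply SemidirectProduct.ext
    · simp
    · simp [hy']
  rw [QuotientGroup.mk'_apply, ← QuotientGroup.mk_pow, ← QuotientGroup.mk_pow] at hw
  have h' := QuotientGroup.eq.1 hw
  refine Set.infinite_range_of_injective hj (h'.1.subset fun x hx => ?_)
  simp only [Function.mem_mulSupport]
  change (((y.1 : Γ) ^ (2 ^ (k + 1)))⁻¹ * (SemidirectProduct.inl v : Γ) ^ (2 ^ k)).left x ≠ 1
  rw [hy2, ← map_pow, ← map_pow, ← map_inv, ← map_mul, SemidirectProduct.left_inl]
  simp only [v, Pi.mul_apply, Pi.inv_apply, Pi.pow_apply, if_pos hx]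
  rw [ne_eq, inv_mul_eq_one]
  intro e2
  have e3 := congrArg Multiplicative.toAdd e2
  rw [toAdd_pow, toAdd_pow, toAdd_ofAdd, pow_succ, nsmul_eq_mul, nsmul_eq_mul] at e3
  push_cast at e3
  have hp : (2 : ℤ) ^ k ≠ 0 := by positivity
  have e4 : 2 * Multiplicative.toAdd (y.1.left x) = 1 := by
    apply mul_left_cancel₀ hp
    rw [← mul_assoc]; exact e3
  omega

/-- Q2 is false: there is a group `G = A B` with `A`, `B` having principal series (they are even
simple) while `G` has none. -/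
theorem result : ∃ (G : Type) (_ : Group G) (A B : Subgroup G),
    (∀ g : G, ∃ a ∈ A, ∃ b ∈ B, g = a * b) ∧ HasPrincipalSeries A ∧ HasPrincipalSeries B ∧
      ¬ HasPrincipalSeries G := by
  refine ⟨G, inferInstance, _, _, factor, of_simple _ (simple_range _ (ψ_ker _)),
    of_simple _ (simple_range _ (ψ_ker _)), fun h => ?_⟩
  obtain ⟨k, hk⟩ := dcc G h (fun j => W (2 ^ j)) (fun j => W_normal _) W_anti
  exact W_ne k (hk (k + 1) (Nat.le_succ k))

end Pool.Agent.Results.MP_bc5942_al.Principal
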